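import Pool.Agent.L0h33.RR.Defs
import Pool.Agent.L0h33.TL.Top
import Pool.Agent.H620R2.GaugeR.R2
import Pool.Agent.H620R2.Gauge.Upper

/-!
# Closure properties
-/

set_option autoImplicit false

namespace Pool.Agent.L0h33.RR

open Function Pool.Agent.NPC Pool.Agent.L0h33.LD Pool.Agent.L0h33.TL Pool.Agent.H660R2.NX
open Pool.Agent.H620R2.Gauge (Oracle IsFP IsP Alg)
open Pool.Agent.H620R2.Gauge (IsFP.pair IsFP.comp IsFP.of_poly IsFP.precomp IsFP.votes IsFP.tt)
open Pool.Agent.H639R2.NTP.C5 (allL mem_allL)

attribute [local irreducible] unpair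

theorem isFP_ite {A : Oracle} {b : List Bool → Bool} {F G : List Bool → List Bool} (hb : Poly b)
    (hF : IsFP A F) (hG : IsFP A G) : IsFP A (fun y => if b y = true then F y else G y) := by
  have k0 : Poly (fun y : List Bool => unpair y) := poly_unpair
  have k1 : Poly (fun y : List Bool => (unpair y).1) := k0.fst
  have k2 : Poly (fun y : List Bool => (unpair y).2) := k0.snd
  have h1 : IsFP A (fun y => pairBits y (pairBits (F y) (G y))) :=
    IsFP.pair (IsFP.of_poly NPC.Poly.id) (IsFP.pair hF hG)
  have h2 : Poly (fun z => if b (unpair z).1 = true then (unpair (unpair z).2).1 else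
      (unpair (unpair z).2).2) :=
    NPC.Poly.ite (NPC.Poly.decide_bool (hb.comp k1)) (k1.comp k2) (k2.comp k2)
  have h3 := IsFP.comp (IsFP.of_poly (A := A) h2) h1
  refine (congrArg (IsFP A) (funext fun y => ?_)).mp h3
  rw [unpair_pairBits]
  simp only
  rw [unpair_pairBits]

theorem ofFn_get_cast {n : ℕ} {w : List Bool} (h : w.length = n) :
    List.ofFn (fun i : Fin n => w.get (i.cast h.symm)) = w := by
  subst h
  exact List.ofFn_get w

theorem exists_ofFn {n : ℕ} {P : List Bool → Prop} :
    (∃ w : Fin n → Bool, P (List.ofFn w)) ↔ ∃ w : List Bool, w.length = n ∧ P w := by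
  constructor
  · rintro ⟨w, hw⟩
    exact ⟨_, by simp, hw⟩
  · rintro ⟨w, h, hw⟩
    exact ⟨fun i => w.get (i.cast h.symm), by rwa [ofFn_get_cast h]⟩

/-- Replacing a finite number of values. -/
theorem ga_patch {A : Oracle} {g : ℕ → ℕ} {L : Set (List Bool)} {V : List Bool → List Bool}
    (hV : IsFP A V) (m : ℕ) (h : ∀ x : List Bool, m ≤ x.length →
      (x ∈ L ↔ ∃ w : List Bool, w.length = g x.length ∧ V (pairBits x w) = [true])) :
    GA A g L := by
  classical
  set F : List (List Bool) := (allL m).filter (fun x => decide (x ∈ L)) with hF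
  have k0 : Poly (fun y : List Bool => unpair y) := poly_unpair
  have k1 : Poly (fun y : List Bool => (unpair y).1) := k0.fst
  have h1 : Poly (fun y : List Bool => [decide ((unpair y).1 ∈ F)]) :=
    NPC.Poly.cons ((NPC.Poly.decide_mem k1 (NPC.Poly.const F)).congr fun _ => by congr)
      (NPC.Poly.const [])
  have h2 := isFP_ite (A := A) (b := fun y => decide ((unpair y).1.length < m))
    (NPC.Poly.decide_lt (NPC.Poly.length k1) (NPC.Poly.const m)) (IsFP.of_poly h1) hV
  refine ⟨_, h2, fun x => ?_⟩
  rw [exists_ofFn (P := fun w => (if decide ((unpair (pairBits x w)).1.length < m) = true then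
    [decide ((unpair (pairBits x w)).1 ∈ F)] else V (pairBits x w)) = [true])]
  simp only [unpair_pairBits, decide_eq_true_eq]
  by_cases hx : x.length < m
  · simp only [hx, if_true, List.cons.injEq, decide_eq_true_eq, and_true, hF, List.mem_filter,
      mem_allL]
    exact ⟨fun hxL => ⟨List.replicate (g x.length) true, by simp, hx.le, hxL⟩,
      fun ⟨w, _, h⟩ => h.2⟩
  · simp only [hx, if_false]
    exact h x (not_lt.1 hx)

theorem ga_iff {A : Oracle} {g : ℕ → ℕ} {L : Set (List Bool)} : GA A g L ↔
    ∃ V : List Bool → List Bool, IsFP A V ∧ ∀ x, x ∈ L ↔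
      ∃ w : List Bool, w.length = g x.length ∧ V (pairBits x w) = [true] := by
  unfold GA
  constructor
  · rintro ⟨V, hV, h⟩
    refine ⟨V, hV, fun x => (h x).trans ?_⟩
    exact exists_ofFn (P := fun w => V (pairBits x w) = [true])
  · rintro ⟨V, hV, h⟩
    refine ⟨V, hV, fun x => (h x).trans ?_⟩
    exact (exists_ofFn (P := fun w => V (pairBits x w) = [true])).symm

theorem bits_bit (b : Bool) (n i : ℕ) :
    (Nat.bit b n).bits.getD i false = (b :: n.bits).getD i false := by
  by_cases h : n = 0 → b = true
  · rw [Nat.bits_append_bit _ _ h]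
  · push Not at h
    obtain ⟨rfl, hb⟩ := h
    have hb : b = false := by simpa using hb
    subst hb
    cases i <;> simp [Nat.bit]

theorem getD_bits_valB : ∀ (l : List Bool) (i : ℕ),
    (valB l).bits.getD i false = l.getD i false
  | [], i => by simp
  | b :: l, i => by
    have h1 : valB (b :: l) = Nat.bit b (valB l) := by
      rw [valB_cons]
      cases b <;> simp [Nat.bit] <;> omega
    rw [h1, bits_bit]
    cases i with
    | zero => simp
    | succ i => simpa using getD_bits_valB l i

/-- The class depends on the number of guessed bits up to a term of logarithmic order only. -/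
theorem ga_mono {A : Oracle} {g g' : ℕ → ℕ} (hg : Nice g) {c : ℕ}
    (h : ∀ n, g n ≤ g' n + c * Nat.log 2 (n + 2)) {L : Set (List Bool)} (hL : GA A g L) :
    GA A g' L := by
  obtain ⟨V, hV, hVL⟩ := ga_iff.1 hL
  have k0 : Poly (fun y : List Bool => unpair y) := poly_unpair
  have k1 : Poly (fun y : List Bool => (unpair y).1) := k0.fst
  have k2 : Poly (fun y : List Bool => (unpair y).2) := k0.snd
  have e1 : Poly (fun q : (ℕ × List Bool) × List Bool => (unpair q.1.2).1) :=
    k1.comp (NPC.Poly.snd (NPC.Poly.fst NPC.Poly.id))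
  have e2 : Poly (fun q : (ℕ × List Bool) × List Bool => (unpair q.1.2).2) :=
    k2.comp (NPC.Poly.snd (NPC.Poly.fst NPC.Poly.id))
  have e3 : Poly (fun q : (ℕ × List Bool) × List Bool => q.1.1.bits) :=
    NPC.Poly.natBits (NPC.Poly.fst (NPC.Poly.fst NPC.Poly.id))
  have e4 : UPoly (fun q : (ℕ × List Bool) × List Bool => g (unpair q.1.2).1.length) :=
    (nice_upoly hg).comp e1
  have e5 : Poly (fun q : (ℕ × List Bool) × List Bool =>
      (List.range (g (unpair q.1.2).1.length)).map (fun j => q.1.1.bits.getD j false)) :=
    NPC.Poly.map (F := fun (q : (ℕ × List Bool) × List Bool) j => q.1.1.bits.getD j false)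
      e4.range (NPC.Poly.getD (e3.comp (NPC.Poly.fst NPC.Poly.id)) (NPC.Poly.snd NPC.Poly.id)
        (NPC.Poly.const _))
  have hW : Poly (fun q : (ℕ × List Bool) × List Bool => pairBits (unpair q.1.2).1
      (((unpair q.1.2).2 ++ (List.range (g (unpair q.1.2).1.length)).map
        (fun j => q.1.1.bits.getD j false)).take (g (unpair q.1.2).1.length))) :=
    poly_pairBits e1 (LD.poly_take (NPC.Poly.append e2 e5) e4)
  have hH : Poly (fun p : List Bool × List Bool => [p.2.any (fun b => b)]) :=
    NPC.Poly.cons (NPC.Poly.any (p := fun _ b => b) (NPC.Poly.snd NPC.Poly.id)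
      (NPC.Poly.snd NPC.Poly.id)) (NPC.Poly.const [])
  have hF := IsFP.votes hV ((Polynomial.X + 2) ^ c) (Q := fun _ => []) (NPC.Poly.const [])
    hW hH
  refine ga_iff.2 ⟨_, hF, fun x => ?_⟩
  rw [hVL]
  simp only [List.any_map, List.cons.injEq, and_true, List.any_eq_true, List.mem_range,
    Function.comp, decide_eq_true_eq, unpair_pairBits]
  constructor
  · rintro ⟨w, hw, hwV⟩
    rcases le_total (g x.length) (g' x.length) with hle | hle
    · refine ⟨w ++ List.replicate (g' x.length - g x.length) false, by simp [hw]; omega, 0, ?_, ?_⟩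
      · simp
      · rw [List.append_assoc, List.take_left' hw]
        exact hwV
    · set k := g x.length - g' x.length with hk
      have h1 : k ≤ c * Nat.log 2 (x.length + 2) := by
        have := h x.length
        omega
      have h2 : 2 ^ k ≤ (x.length + 2) ^ c := by
        calc 2 ^ k ≤ 2 ^ (c * Nat.log 2 (x.length + 2)) := Nat.pow_le_pow_right (by norm_num) h1
          _ = (2 ^ Nat.log 2 (x.length + 2)) ^ c := by rw [mul_comm, pow_mul]
          _ ≤ (x.length + 2) ^ c := Nat.pow_le_pow_left (Nat.pow_log_le_self 2 (by omega)) c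
      refine ⟨w.take (g' x.length), by simp [hw]; omega, valB (w.drop (g' x.length)), ?_, ?_⟩
      · have h3 := valB_lt (w.drop (g' x.length))
        have h4 : (w.drop (g' x.length)).length = k := by simp [hw]; omega
        rw [h4] at h3
        simp only [Polynomial.eval_pow, Polynomial.eval_add, Polynomial.eval_X,
          Polynomial.eval_ofNat]
        refine h3.trans_le (h2.trans (Nat.pow_le_pow_left ?_ c))
        rw [LD.length_pairBits]
        omega
      · convert hwV using 3
        refine List.ext_getElem ?_ fun i h3 h4 => ?_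
        · simp [hw]
        · rw [List.getElem_take]
          have h5 : i < g x.length := by rw [← hw]; exact h4
          by_cases h6 : i < g' x.length
          · rw [List.getElem_append_left (by simp [hw]; omega)]
            simp
          · rw [List.getElem_append_right (by simp [hw]; omega)]
            have h7 : (w.take (g' x.length)).length = g' x.length := by simp [hw]; omega
            simp only [List.getElem_map, List.getElem_range, h7]
            have h8 := getD_bits_valB (w.drop (g' x.length)) (i - g' x.length)
            rw [h8, List.getD_eq_getElem _ _ (by simp [hw]; omega), List.getElem_drop]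
            congr 1
            omega
  · rintro ⟨v, hv, i, _, hi⟩
    by_cases hlen : ((v ++ (List.range (g x.length)).map (fun j => i.bits.getD j false)).take
        (g x.length)).length = g x.length
    · exact ⟨_, hlen, hi⟩
    · exfalso
      apply hlen
      simp

end Pool.Agent.L0h33.RR
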