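import Pool.Agent.L0h33.RR.Sep

/-!
# The classes between `P` and `NP` relative to a random oracle
-/

set_option autoImplicit false

namespace Pool.Agent.L0h33.RR

open Function Pool.Agent.NPC Pool.Agent.L0h33.LD MeasureTheory Pool.Agent.H660R2.NX
open Pool.Agent.H620R2.Gauge (Oracle IsFP IsP Alg)
open Pool.Agent.H620R2.Gauge (IsFP.pair IsFP.comp IsFP.of_poly IsFP.precomp IsFP.votes IsFP.tt)
open Pool.Agent.H628R3.RO (randomOracle)

attribute [local irreducible] unpair

/-- Unused random bits. -/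
theorem rndA_more {A : Oracle} {r r' s s' : ℕ → ℕ} (hr : Nice r) (h1 : ∀ n, r n ≤ r' n)
    (h2 : ∀ n, s n ≤ s' n) {L : Set (List Bool)} (hL : RndA A r s L) : RndA A r' s' L := by
  obtain ⟨V, hV, hok⟩ := hL
  have k0 : Poly (fun y : List Bool => unpair y) := poly_unpair
  have k1 : Poly (fun y : List Bool => (unpair y).1) := k0.fst
  have k2 : Poly (fun y : List Bool => (unpair y).2) := k0.snd
  have hg : Poly (fun y : List Bool => pairBits (unpair y).1
      ((unpair y).2.take (r (unpair y).1.length))) :=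
    poly_pairBits k1 (LD.poly_take k2 ((nice_upoly hr).comp k1))
  refine ⟨_, IsFP.precomp hV hg, fun x => ?_⟩
  have h3 : Ok V x (r x.length) (s x.length) (x ∈ L) := hok x
  exact h3.more (h1 _) (h2 _) fun w _ => by rw [unpair_pairBits]

theorem ga_rndA {A : Oracle} {g : ℕ → ℕ} {L : Set (List Bool)} :
    GA A g L ↔ RndA A g g L := by
  rw [ga_iff]
  unfold RndA
  refine exists_congr fun V => and_congr_right fun _ => forall_congr' fun x => ?_
  have h1 := @ok_iff V x (g x.length) (x ∈ L)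
  have h2 : (∃ w ∈ exL (g x.length), V (pairBits x w) = [true]) ↔
      ∃ w : List Bool, w.length = g x.length ∧ V (pairBits x w) = [true] := by
    simp only [mem_exL]
  rw [h2] at h1
  exact h1.symm

theorem rndA_ga {A : Oracle} {r s : ℕ → ℕ} {L : Set (List Bool)} (h : RndA A r s L) :
    GA A r L := by
  obtain ⟨V, hV, hok⟩ := h
  refine ga_iff.2 ⟨V, hV, fun x => ?_⟩
  have h3 : Ok V x (r x.length) (s x.length) (x ∈ L) := hok x
  rw [h3.iff]
  simp only [mem_exL]

theorem ga_min {A : Oracle} {r s : ℕ → ℕ} (hr : Nice r) (hs : Nice s) {L : Set (List Bool)}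
    (h1 : GA A r L) (h2 : GA A s L) : GA A (fun n => min (r n) (s n)) L := by
  obtain ⟨V, hV, hVL⟩ := ga_iff.1 h1
  obtain ⟨V', hV', hVL'⟩ := ga_iff.1 h2
  have k0 : Poly (fun y : List Bool => unpair y) := poly_unpair
  have k1 : Poly (fun y : List Bool => (unpair y).1) := k0.fst
  have h3 := isFP_ite (A := A) (b := fun y => decide (r (unpair y).1.length ≤
    s (unpair y).1.length)) (NPC.Poly.decide_le ((nice_upoly hr).comp k1).toPoly
      ((nice_upoly hs).comp k1).toPoly) hV hV'
  refine ga_iff.2 ⟨_, h3, fun x => ?_⟩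
  simp only [unpair_pairBits, decide_eq_true_eq]
  by_cases h : r x.length ≤ s x.length
  · simp only [h, if_true, min_eq_left]
    exact hVL x
  · simp only [h, if_false]
    rw [min_eq_right (by omega)]
    exact hVL' x

theorem spA_of_rndA {A : Oracle} {r s : ℕ → ℕ} (hr : Nice r) {L : Set (List Bool)}
    (h : RndA A r s L) : SPA A s L := by
  obtain ⟨p, hp⟩ := nice_le hr
  exact ⟨p, rndA_more hr hp (fun _ => le_rfl) h⟩

theorem nice_min {r s : ℕ → ℕ} (hr : Nice r) (hs : Nice s) :
    Nice (fun n => min (r n) (s n)) := by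
  refine nice_of_upoly ?_
  refine UPoly.of_le (NPC.Poly.min (nice_upoly hr).toPoly (nice_upoly hs).toPoly)
    (nice_upoly hr) fun a => min_le_left _ _

theorem isP_ga {A : Oracle} {L : Set (List Bool)} : IsP A L ↔ GA A (fun _ => 0) L := by
  have k0 : Poly (fun y : List Bool => unpair y) := poly_unpair
  rw [ga_iff]
  constructor
  · rintro ⟨V, hV, h⟩
    refine ⟨_, IsFP.precomp hV k0.fst, fun x => ?_⟩
    rw [h x]
    constructor
    · intro hx
      exact ⟨[], rfl, by rw [unpair_pairBits]; exact hx⟩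
    · rintro ⟨w, _, hw⟩
      rw [unpair_pairBits] at hw
      exact hw
  · rintro ⟨V, hV, h⟩
    refine ⟨_, IsFP.precomp hV (poly_pairBits NPC.Poly.id (NPC.Poly.const [])), fun x => ?_⟩
    rw [h x]
    constructor
    · rintro ⟨w, hw, hV⟩
      rw [List.length_eq_zero_iff.1 hw] at hV
      exact hV
    · exact fun hx => ⟨[], rfl, hx⟩

theorem main : ∀ᵐ A ∂randomOracle,
    (∀ r s, Nice r → Nice s → ∀ L, RndA A r s L ↔ GA A (fun n => min (r n) (s n)) L) ∧
    (∀ s, Nice s → ∀ L, SPA A s L ↔ GA A s L) ∧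
    (∀ L, SPA A (fun _ => 1) L ↔ IsP A L) ∧
    (∀ g g', Nice g → Nice g' → ((∀ L, GA A g L → GA A g' L) ↔
      ∃ c, ∀ n, g n ≤ g' n + c * Nat.log 2 (n + 2))) := by
  filter_upwards [ae_sp_ga, ae_sep] with A h1 h2
  have h3 : ∀ s, Nice s → ∀ L, SPA A s L ↔ GA A s L := fun s hs L =>
    ⟨h1 s hs L, fun h => spA_of_rndA hs (ga_rndA.1 h)⟩
  refine ⟨fun r s hr hs L => ⟨fun h => ?_, fun h => ?_⟩, h3, fun L => ?_, fun g g' hg hg' => ?_⟩
  · exact ga_min hr hs (rndA_ga h) (h1 s hs L (spA_of_rndA hr h))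
  · exact rndA_more (nice_min hr hs) (fun n => min_le_left _ _) (fun n => min_le_right _ _)
      (ga_rndA.1 h)
  · rw [h3 _ (nice_const 1), isP_ga]
    refine ⟨ga_mono (nice_const 1) (c := 1) fun n => ?_, ga_mono (nice_const 0) (c := 0)
      fun n => by omega⟩
    have : 1 ≤ Nat.log 2 (n + 2) := Nat.log_pos (by norm_num) (by omega)
    omega
  · constructor
    · intro h
      by_contra hne
      exact h2 g' g hg' hg hne (h _ (ga_LW hg A))
    · rintro ⟨c, hc⟩ L hL
      exact ga_mono hg hc hL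

end Pool.Agent.L0h33.RR
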