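import Pool.Agent.L0h33.LD.Defs
import Pool.Agent.H620R2.Gauge.Defs
import Pool.Agent.H628R3.RO.Defs

/-!
# Bounded randomness, success probability and nondeterminism relative to an oracle
-/

set_option autoImplicit false

namespace Pool.Agent.L0h33.RR

open Pool.Agent.NPC Pool.Agent.L0h33.LD
open Pool.Agent.H620R2.Gauge (Oracle IsFP IsP)

/-- `RP[r, s]` relative to the oracle `A`: an algorithm `V` with oracle `A` that uses `r (|x|)`
random bits on the input `x`, accepts the members of `L` with probability at least
`2 ^ (- s (|x|))`, and never accepts a string which is not in `L`. -/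
def RndA (A : Oracle) (r s : ℕ → ℕ) (L : Set (List Bool)) : Prop :=
  ∃ V : List Bool → List Bool, IsFP A V ∧ ∀ x,
    (x ∈ L → 2 ^ r x.length ≤ 2 ^ s x.length * acc V x (r x.length)) ∧
    (x ∉ L → acc V x (r x.length) = 0)

/-- `SP[s]` relative to `A`: success probability at least `2 ^ (- s (|x|))`, and any polynomial
number of random bits. -/
def SPA (A : Oracle) (s : ℕ → ℕ) (L : Set (List Bool)) : Prop :=
  ∃ p : Polynomial ℕ, RndA A (fun n => p.eval n) s L

/-- `G[g]` relative to `A`: nondeterministic polynomial time with `g (|x|)` guessed bits. -/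
def GA (A : Oracle) (g : ℕ → ℕ) (L : Set (List Bool)) : Prop :=
  ∃ V : List Bool → List Bool, IsFP A V ∧ ∀ x,
    x ∈ L ↔ ∃ w : Fin (g x.length) → Bool, V (pairBits x (List.ofFn w)) = [true]

end Pool.Agent.L0h33.RR
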