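import Pool.Agent.L0h33.RR.Prob

/-!
# Success probability and guessing are the same relative to a random oracle
-/

set_option autoImplicit false

namespace Pool.Agent.L0h33.RR

open Function Pool.Agent.NPC Pool.Agent.L0h33.LD MeasureTheory Pool.Agent.H660R2.NX
open Pool.Agent.H620R2.Gauge (Oracle IsFP IsP Alg)
open Pool.Agent.H620R2.Gauge (IsFP.pair IsFP.comp IsFP.of_poly IsFP.precomp IsFP.votes IsFP.tt
  Alg.out_local)
open Pool.Agent.H628R3.RO (prob randomOracle Loc strsEq mem_strsEq length_strsEq nodup_strsEq)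
open Pool.Agent.H628R3.RO.M2 (prob_nonneg prob_mono)
open scoped ENNReal

attribute [local irreducible] unpair

instance : IsProbabilityMeasure randomOracle := by
  unfold randomOracle
  infer_instance

theorem acc_accS {M : Alg} {A : Oracle} {V : List Bool → List Bool}
    (hV : ∀ y, M.out A y = some (V y)) (x : List Bool) (r : ℕ) :
    acc V x r = (accS M A x r).card := by
  classical
  unfold acc
  rw [← Finset.card_image_of_injective _ (List.ofFn_injective (n := r) (α := Bool))]
  congr 1
  ext w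
  simp only [Finset.mem_image, Finset.mem_filter, Finset.mem_univ, true_and, mem_accS, hV,
    Option.some.injEq]
  constructor
  · rintro ⟨f, hf, rfl⟩
    exact ⟨by simp, hf⟩
  · rintro ⟨h1, h2⟩
    subst h1
    exact ⟨fun i => w.get i, by rwa [List.ofFn_get], List.ofFn_get w⟩

theorem poly_spot {α : Type} [TEnc α] {b : α → ℕ} {x v : α → List Bool} {e j : α → ℕ}
    (hb : UPoly b) (hx : Poly x) (hv : Poly v) (he : Poly e) (hj : Poly j) :
    Poly (fun a => spot (b a) (x a) (v a) (e a) (j a)) := by
  have h1 : Poly (fun a => (List.replicate (b a) ()).map (fun _ => true)) :=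
    NPC.Poly.map (F := fun _ _ => true) hb (NPC.Poly.const true)
  have h2 : Poly (fun a => List.replicate (b a) true) := h1.congr fun a => by simp
  exact poly_pairBits hx (poly_pairBits hv (poly_pairBits he.natBits (poly_pairBits hj.natBits h2)))

/-- The verifier which uses the oracle for the random bits. -/
theorem exists_ver {A : Oracle} {V : List Bool → List Bool} (hV : IsFP A V)
    (p b : Polynomial ℕ) : ∃ V' : List Bool → List Bool, IsFP A V' ∧ ∀ x v : List Bool,
      V' (pairBits x v) = [true] ↔ ∃ e < 2 * (pairBits x v).length + 2,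
        V (pairBits x (word (b.eval x.length) (p.eval x.length) A x (v, e))) = [true] := by
  have k0 : Poly (fun y : List Bool => unpair y) := poly_unpair
  have k1 : Poly (fun y : List Bool => (unpair y).1) := k0.fst
  have k2 : Poly (fun y : List Bool => (unpair y).2) := k0.snd
  have hQ : Poly (fun q : ℕ × List Bool => (List.range (p.eval (unpair q.2).1.length)).map
      (fun j => spot (b.eval (unpair q.2).1.length) (unpair q.2).1 (unpair q.2).2 q.1 j)) := by
    have e0 : Poly (fun a : (ℕ × List Bool) × ℕ => a.1.2) :=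
      NPC.Poly.snd (NPC.Poly.fst NPC.Poly.id)
    have e1 := k1.comp e0
    have e2 := k2.comp e0
    exact NPC.Poly.map (F := fun (q : ℕ × List Bool) j =>
      spot (b.eval (unpair q.2).1.length) (unpair q.2).1 (unpair q.2).2 q.1 j)
      (UPoly.range (UPoly.eval (UPoly.length (k1.comp (NPC.Poly.snd NPC.Poly.id))) p))
      (poly_spot (UPoly.eval (UPoly.length e1) b) e1 e2 (NPC.Poly.fst (NPC.Poly.fst NPC.Poly.id))
        (NPC.Poly.snd NPC.Poly.id))
  have hW : Poly (fun q : (ℕ × List Bool) × List Bool => pairBits (unpair q.1.2).1 q.2) :=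
    poly_pairBits (k1.comp (NPC.Poly.snd (NPC.Poly.fst NPC.Poly.id))) (NPC.Poly.snd NPC.Poly.id)
  have hH : Poly (fun p : List Bool × List Bool => [p.2.any (fun b => b)]) :=
    NPC.Poly.cons (NPC.Poly.any (p := fun _ b => b) (NPC.Poly.snd NPC.Poly.id)
      (NPC.Poly.snd NPC.Poly.id)) (NPC.Poly.const [])
  refine ⟨_, IsFP.votes hV (2 * Polynomial.X + 2) hQ hW hH, fun x v => ?_⟩
  simp only [List.any_map, List.cons.injEq, and_true, List.any_eq_true, List.mem_range,
    Function.comp, decide_eq_true_eq, unpair_pairBits, List.map_map, Polynomial.eval_add,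
    Polynomial.eval_mul, Polynomial.eval_ofNat, Polynomial.eval_X]
  rfl

theorem ae_trials (M : Alg) (p : Polynomial ℕ) (s : ℕ → ℕ) : ∃ b : Polynomial ℕ,
    ∀ᵐ A ∂randomOracle, ∀ᶠ n in Filter.atTop, ∀ x : List Bool, x.length = n →
      A ∉ BadS M (b.eval n) (p.eval n) (s n) n x := by
  classical
  obtain ⟨qb, hqb⟩ := M.out_local
  refine ⟨qb.comp (2 * Polynomial.X + 1 + p), ?_⟩
  have hb : ∀ (n : ℕ) (x : List Bool), x.length = n → ∀ w : List Bool,
      w.length = p.eval n → ∀ A A' : Oracle,
      (∀ q : List Bool, q.length ≤ (qb.comp (2 * Polynomial.X + 1 + p)).eval n → A q = A' q) →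
        M.out A (pairBits x w) = M.out A' (pairBits x w) := by
    intro n x hx w hw A A' h
    obtain ⟨Q, _, hQ, hloc⟩ := hqb A' (pairBits x w)
    refine hloc A fun q hq => h q ?_
    have := hQ q hq
    rw [LD.length_pairBits, hx, hw] at this
    simpa using this
  have h1 : ∀ n : ℕ, randomOracle (⋃ x ∈ (strsEq n).toFinset,
      BadS M ((qb.comp (2 * Polynomial.X + 1 + p)).eval n) (p.eval n) (s n) n x) ≤
      ENNReal.ofReal ((1 / 2) ^ n) := by
    intro n
    rw [← ofReal_measureReal (measure_ne_top _ _)]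
    refine ENNReal.ofReal_le_ofReal ?_
    refine (measureReal_biUnion_finset_le _ _).trans ?_
    calc ∑ x ∈ (strsEq n).toFinset, randomOracle.real
          (BadS M ((qb.comp (2 * Polynomial.X + 1 + p)).eval n) (p.eval n) (s n) n x)
        ≤ ∑ _x ∈ (strsEq n).toFinset, (1 / 2 : ℝ) ^ (2 * n + 2) :=
          Finset.sum_le_sum fun x hx => prob_BadS _ _
            (hb n x (mem_strsEq.1 (List.mem_toFinset.1 hx)))
      _ = 2 ^ n * (1 / 2 : ℝ) ^ (2 * n + 2) := by
          rw [Finset.sum_const, List.toFinset_card_of_nodup (nodup_strsEq n), length_strsEq,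
            nsmul_eq_mul]
          push_cast
          rfl
      _ = (2 ^ n * (1 / 2 : ℝ) ^ n) * (1 / 2 : ℝ) ^ (n + 2) := by ring
      _ = (1 / 2 : ℝ) ^ (n + 2) := by rw [← mul_pow]; norm_num
      _ ≤ (1 / 2 : ℝ) ^ n := pow_le_pow_of_le_one (by norm_num) (by norm_num) (by omega)
  have h2 : (∑' n, randomOracle (⋃ x ∈ (strsEq n).toFinset,
      BadS M ((qb.comp (2 * Polynomial.X + 1 + p)).eval n) (p.eval n) (s n) n x)) ≠ ∞ := by
    refine ne_top_of_le_ne_top ?_ (ENNReal.tsum_le_tsum h1)
    rw [← ENNReal.ofReal_tsum_of_nonneg (fun n => by positivity) summable_geometric_two]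
    exact ENNReal.ofReal_ne_top
  filter_upwards [ae_eventually_notMem h2] with A hA
  filter_upwards [hA] with n hn x hx hb
  refine hn ?_
  simp only [Set.mem_iUnion, exists_prop]
  exact ⟨x, List.mem_toFinset.2 (mem_strsEq.2 hx), hb⟩

theorem countable_nice : {s : ℕ → ℕ | Nice s}.Countable := by
  have h1 : {D : List Bool → List Bool | PolyTime D}.Countable :=
    Pool.Agent.NPC.PIso.countable_polyTime
  refine Set.Countable.mono (s₂ := (fun (s : ℕ → ℕ) (x : List Bool) =>
    List.replicate (s x.length) true) ⁻¹' {D | PolyTime D}) (fun s hs => hs) ?_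
  refine h1.preimage_of_injOn ?_
  intro s _ s' _ h
  funext n
  have := congrArg List.length (congrFun h (List.replicate n true))
  simpa using this

/-- Relative to a random oracle, success probability `2 ^ (- s)` is as good as `s` guessed bits. -/
theorem ae_sp_ga : ∀ᵐ A ∂randomOracle, ∀ s, Nice s → ∀ L, SPA A s L → GA A s L := by
  have hc := countable_nice.to_subtype
  have hp : Countable (Polynomial ℕ) := by
    have : Function.Injective (fun p : Polynomial ℕ => (p.toFinsupp.coeff : ℕ →₀ ℕ)) := by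
      intro p q h
      ext n
      exact DFunLike.congr_fun h n
    exact this.countable
  have h1 : ∀ i : Alg × Polynomial ℕ × {s : ℕ → ℕ | Nice s}, ∃ b : Polynomial ℕ,
      ∀ᵐ A ∂randomOracle, ∀ᶠ n in Filter.atTop, ∀ x : List Bool, x.length = n →
        A ∉ BadS i.1 (b.eval n) (i.2.1.eval n) (i.2.2.1 n) n x := fun i =>
    ae_trials i.1 i.2.1 i.2.2.1
  choose b hb using h1
  rw [← ae_all_iff] at hb
  filter_upwards [hb] with A hA s hs L hL
  obtain ⟨p, V, ⟨M, hM⟩, hVL⟩ := hL
  obtain ⟨n₀, hn₀⟩ := Filter.eventually_atTop.1 (hA (M, p, ⟨s, hs⟩))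
  obtain ⟨V', hV', hVV⟩ := exists_ver (A := A) (V := V) ⟨M, hM⟩ p (b (M, p, ⟨s, hs⟩))
  refine ga_patch hV' n₀ fun x hx => ?_
  have h2 := hn₀ x.length hx x rfl
  simp only at h2 hVL
  obtain ⟨h3, h4⟩ := hVL x
  constructor
  · intro hxL
    have h5 := h3 hxL
    rw [acc_accS hM] at h5
    by_contra hcon
    refine h2 ⟨h5, fun κ hκ hw => hcon ?_⟩
    unfold trialsI at hκ
    rw [Finset.mem_product, List.mem_toFinset, mem_strsEq, Finset.mem_range] at hκ
    refine ⟨κ.1, hκ.1, (hVV x κ.1).2 ⟨κ.2, ?_, ?_⟩⟩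
    · rw [LD.length_pairBits]
      omega
    · have := (mem_accS.1 hw).2
      rw [hM] at this
      exact Option.some.inj this
  · rintro ⟨v, _, hv⟩
    obtain ⟨e, _, he⟩ := (hVV x v).1 hv
    by_contra hxL
    have h5 := h4 hxL
    rw [Pool.Agent.L0h33.TL.acc_cnt, Pool.Agent.L0h33.TL.cnt_zero] at h5
    exact h5 _ (by simp) he

end Pool.Agent.L0h33.RR
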