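import Pool.Agent.L0h33.RR.Cls
import Pool.Agent.H628R3.RO.M2
import Pool.Agent.H628R3.RO.M4
import Pool.Agent.H628R3.RO.N1
import Pool.Agent.H628R3.RO.D1

/-!
# Random trials with bits of the oracle
-/

set_option autoImplicit false

namespace Pool.Agent.L0h33.RR

open Function Pool.Agent.NPC Pool.Agent.L0h33.LD MeasureTheory
open Pool.Agent.H620R2.Gauge (Oracle IsFP IsP Alg)
open Pool.Agent.H628R3.RO (prob randomOracle Loc prob_inter_of_disjoint measurableSet_of_loc
  prob_agree strsEq mem_strsEq length_strsEq nodup_strsEq prob_univ' sat_le)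
open Pool.Agent.H628R3.RO.M2 (prob_nonneg prob_mono)

attribute [local irreducible] unpair

/-- The place of the random bit number `j` of the trial number `e` with the string `v`. -/
def spot (b : ℕ) (x v : List Bool) (e j : ℕ) : List Bool :=
  pairBits x (pairBits v (pairBits e.bits (pairBits j.bits (List.replicate b true))))

theorem pairBits_inj {x x' w w' : List Bool} (h : pairBits x w = pairBits x' w') :
    x = x' ∧ w = w' := by
  have := congrArg unpair h
  rw [unpair_pairBits, unpair_pairBits] at this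
  exact ⟨(Prod.mk.inj this).1, (Prod.mk.inj this).2⟩

theorem bits_inj {m n : ℕ} (h : m.bits = n.bits) : m = n := by
  rw [← valB_bits m, ← valB_bits n, h]

theorem spot_inj {b b' : ℕ} {x v x' v' : List Bool} {e j e' j' : ℕ}
    (h : spot b x v e j = spot b' x' v' e' j') : x = x' ∧ v = v' ∧ e = e' ∧ j = j' := by
  obtain ⟨h1, h2⟩ := pairBits_inj h
  obtain ⟨h3, h4⟩ := pairBits_inj h2
  obtain ⟨h5, h6⟩ := pairBits_inj h4
  obtain ⟨h7, _⟩ := pairBits_inj h6
  exact ⟨h1, h3, bits_inj h5, bits_inj h7⟩

theorem lt_length_spot (b : ℕ) (x v : List Bool) (e j : ℕ) : b < (spot b x v e j).length := by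
  unfold spot
  simp only [LD.length_pairBits, List.length_replicate]
  omega

/-- The random bits of a trial. -/
def word (b r : ℕ) (A : Oracle) (x : List Bool) (κ : List Bool × ℕ) : List Bool :=
  (List.range r).map (fun j => A (spot b x κ.1 κ.2 j))

@[simp] theorem word_length (b r : ℕ) (A : Oracle) (x : List Bool) (κ : List Bool × ℕ) :
    (word b r A x κ).length = r := by simp [word]

/-- The places of a trial. -/
def blkS (b r : ℕ) (x : List Bool) (κ : List Bool × ℕ) : Finset (List Bool) :=
  (Finset.range r).image (spot b x κ.1 κ.2)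

theorem word_congr {b r : ℕ} {A A' : Oracle} {x : List Bool} {κ : List Bool × ℕ}
    (h : ∀ q ∈ blkS b r x κ, A q = A' q) : word b r A x κ = word b r A' x κ := by
  unfold word
  refine List.map_congr_left fun j hj => h _ ?_
  exact Finset.mem_image_of_mem _ (Finset.mem_range.2 (List.mem_range.1 hj))

theorem blkS_disjoint {b r : ℕ} {x : List Bool} {κ κ' : List Bool × ℕ} {q : List Bool}
    (h : q ∈ blkS b r x κ) (h' : q ∈ blkS b r x κ') : κ = κ' := by
  unfold blkS at h h'
  rw [Finset.mem_image] at h h'
  obtain ⟨j, _, rfl⟩ := h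
  obtain ⟨j', _, h2⟩ := h'
  obtain ⟨_, h3, h4, _⟩ := spot_inj h2
  exact (Prod.ext h3 h4).symm

theorem loc_word (b r : ℕ) (x : List Bool) (κ : List Bool × ℕ) (P : List Bool → Prop) :
    Loc (blkS b r x κ : Set (List Bool)) {A | P (word b r A x κ)} := by
  intro A A' h
  rw [Set.mem_ofPred_eq, Set.mem_ofPred_eq, word_congr h]

theorem prob_word (b r : ℕ) (x : List Bool) (κ : List Bool × ℕ) {w : List Bool}
    (hw : w.length = r) : prob {A | word b r A x κ = w} = (1 / 2) ^ r := by
  set K : List (List Bool) := (List.range r).map (spot b x κ.1 κ.2) with hK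
  set B : Oracle := fun q =>
    decide (q ∈ ((List.range r).filter (fun j => w.getD j false)).map (spot b x κ.1 κ.2)) with hB
  have hinj : Function.Injective (spot b x κ.1 κ.2) := fun j j' h => (spot_inj h).2.2.2
  have hBj : ∀ j < r, B (spot b x κ.1 κ.2 j) = w.getD j false := by
    intro j hj
    rw [hB]
    have h0 : (spot b x κ.1 κ.2 j ∈ ((List.range r).filter (fun j => w.getD j false)).map
        (spot b x κ.1 κ.2)) ↔ w.getD j false = true := by
      rw [List.mem_map_of_injective hinj, List.mem_filter]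
      simp [hj]
    simp only [h0]
    simp
  have h1 : {A | word b r A x κ = w} = {A : Oracle | ∀ q ∈ K, A q = B q} := by
    ext A
    rw [Set.mem_ofPred_eq, Set.mem_ofPred_eq]
    constructor
    · intro h q hq
      rw [hK, List.mem_map] at hq
      obtain ⟨j, hj, rfl⟩ := hq
      have hj' := List.mem_range.1 hj
      rw [hBj j hj', ← h, List.getD_eq_getElem _ _ (by simpa using hj')]
      simp [word]
    · intro h
      refine List.ext_getElem (by simp [hw]) fun j h2 h3 => ?_
      have hj : j < r := by simpa using h2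
      have h4 := h (spot b x κ.1 κ.2 j) (List.mem_map_of_mem (List.mem_range.2 hj))
      rw [hBj j hj, List.getD_eq_getElem _ _ h3] at h4
      rw [← h4]
      simp [word]
  rw [h1, prob_agree K ((List.nodup_range).map hinj) B]
  simp [hK]

theorem prob_word_mem (b r : ℕ) (x : List Bool) (κ : List Bool × ℕ) {F : Finset (List Bool)}
    (hF : ∀ w ∈ F, w.length = r) :
    prob {A | word b r A x κ ∈ F} = F.card * (1 / 2) ^ r := by
  have h1 : {A | word b r A x κ ∈ F} = ⋃ w ∈ F, {A | word b r A x κ = w} := by
    ext A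
    simp
  rw [h1]
  unfold prob
  rw [measureReal_biUnion_finset]
  · have h2 : ∀ w ∈ F, randomOracle.real {A | word b r A x κ = w} = (1 / 2) ^ r :=
      fun w hw => prob_word b r x κ (hF w hw)
    rw [Finset.sum_congr rfl h2, Finset.sum_const, nsmul_eq_mul]
  · intro w _ w' _ hne
    rw [Function.onFun, Set.disjoint_left]
    intro A hA hA'
    exact hne (hA.symm.trans hA')
  · intro w _
    exact measurableSet_of_loc (Finset.finite_toSet _) (loc_word b r x κ (fun l => l = w))

theorem prob_word_notMem (b r : ℕ) (x : List Bool) (κ : List Bool × ℕ) {F : Finset (List Bool)}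
    (hF : ∀ w ∈ F, w.length = r) :
    prob {A | word b r A x κ ∉ F} = 1 - F.card * (1 / 2) ^ r := by
  rw [← prob_word_mem b r x κ hF]
  have h1 : {A | word b r A x κ ∉ F} = {A | word b r A x κ ∈ F}ᶜ := rfl
  have hm := measurableSet_of_loc (Finset.finite_toSet _) (loc_word b r x κ (fun l => l ∈ F))
  rw [h1]
  unfold prob
  rw [measureReal_compl hm]
  simp

theorem prob_words (b r : ℕ) (x : List Bool) (I : Finset (List Bool × ℕ))
    {F : Finset (List Bool)} (hF : ∀ w ∈ F, w.length = r) :
    prob {A | ∀ κ ∈ I, word b r A x κ ∉ F} = (1 - F.card * (1 / 2) ^ r) ^ I.card := by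
  classical
  induction I using Finset.induction_on with
  | empty =>
    have : {A : Oracle | ∀ κ ∈ (∅ : Finset (List Bool × ℕ)), word b r A x κ ∉ F} = Set.univ := by
      ext A
      simp
    rw [this, prob_univ']
    simp
  | insert κ I hκ ih =>
    have h1 : {A | ∀ κ' ∈ insert κ I, word b r A x κ' ∉ F} =
        {A | ∀ κ' ∈ I, word b r A x κ' ∉ F} ∩ {A | word b r A x κ ∉ F} := by
      ext A
      simp only [Finset.mem_insert, forall_eq_or_imp, Set.mem_inter_iff]
      exact and_comm
    have h2 : Loc (⋃ κ' ∈ I, (blkS b r x κ' : Set (List Bool)))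
        {A | ∀ κ' ∈ I, word b r A x κ' ∉ F} := by
      intro A A' h
      rw [Set.mem_ofPred_eq, Set.mem_ofPred_eq]
      refine forall₂_congr fun κ' hκ' => ?_
      rw [word_congr fun q hq => h q (Set.mem_biUnion hκ' hq)]
    rw [h1, prob_inter_of_disjoint _ (Finset.finite_toSet _) _ h2
      (loc_word b r x κ (fun l => l ∉ F)), ih, prob_word_notMem b r x κ hF,
      Finset.card_insert_of_notMem hκ, pow_succ]
    · exact Set.Finite.biUnion (Finset.finite_toSet I) fun κ' _ => Finset.finite_toSet _
    · rw [Set.disjoint_left]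
      intro q hq hq'
      rw [Set.mem_iUnion₂] at hq
      obtain ⟨κ', hκ', hq⟩ := hq
      exact hκ (blkS_disjoint hq' hq ▸ hκ')

/-- The accepted strings. -/
def accS (M : Alg) (A : Oracle) (x : List Bool) (r : ℕ) : Finset (List Bool) :=
  (strsEq r).toFinset.filter (fun w => M.out A (pairBits x w) = some [true])

theorem mem_accS {M : Alg} {A : Oracle} {x w : List Bool} {r : ℕ} :
    w ∈ accS M A x r ↔ w.length = r ∧ M.out A (pairBits x w) = some [true] := by
  unfold accS
  rw [Finset.mem_filter, List.mem_toFinset, mem_strsEq]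

/-- The trials for the input `x`. -/
def trialsI (s n : ℕ) : Finset (List Bool × ℕ) := (strsEq s).toFinset ×ˢ Finset.range (2 * n + 2)

theorem card_trialsI (s n : ℕ) : (trialsI s n).card = (2 * n + 2) * 2 ^ s := by
  unfold trialsI
  rw [Finset.card_product, List.toFinset_card_of_nodup (nodup_strsEq s), length_strsEq,
    Finset.card_range, mul_comm]

/-- The bad event for the input `x`. -/
def BadS (M : Alg) (b r s n : ℕ) (x : List Bool) : Set Oracle :=
  {A | 2 ^ r ≤ 2 ^ s * (accS M A x r).card ∧ ∀ κ ∈ trialsI s n, word b r A x κ ∉ accS M A x r}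

theorem prob_BadS {M : Alg} {b r : ℕ} (s n : ℕ) {x : List Bool}
    (hb : ∀ w : List Bool, w.length = r → ∀ A A' : Oracle,
      (∀ q : List Bool, q.length ≤ b → A q = A' q) →
        M.out A (pairBits x w) = M.out A' (pairBits x w)) :
    prob (BadS M b r s n x) ≤ (1 / 2) ^ (2 * n + 2) := by
  classical
  set P : Finset (Finset (List Bool)) :=
    ((strsEq r).toFinset.powerset).filter (fun F => 2 ^ r ≤ 2 ^ s * F.card) with hP
  have hlocE : ∀ F : Finset (List Bool), Loc {q : List Bool | q.length ≤ b}
      {A | accS M A x r = F} := by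
    intro F A A' h
    have h1 : accS M A x r = accS M A' x r := by
      ext w
      rw [mem_accS, mem_accS]
      refine and_congr_right fun hw => ?_
      rw [hb w hw A A' h]
    rw [Set.mem_ofPred_eq, Set.mem_ofPred_eq, h1]
  have hfin : {q : List Bool | q.length ≤ b}.Finite := Pool.Agent.H628R3.RO.finite_length_le b
  have h1 : BadS M b r s n x ⊆ ⋃ F ∈ P, ({A | accS M A x r = F} ∩
      {A | ∀ κ ∈ trialsI s n, word b r A x κ ∉ F}) := by
    rintro A ⟨h2, h3⟩
    simp only [Set.mem_iUnion, exists_prop]
    refine ⟨accS M A x r, ?_, rfl, h3⟩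
    rw [hP, Finset.mem_filter, Finset.mem_powerset]
    exact ⟨Finset.filter_subset _ _, h2⟩
  have h2 : ∀ F ∈ P, prob ({A | accS M A x r = F} ∩
      {A | ∀ κ ∈ trialsI s n, word b r A x κ ∉ F}) ≤
      prob {A | accS M A x r = F} * (1 / 2) ^ (2 * n + 2) := by
    intro F hF
    rw [hP, Finset.mem_filter, Finset.mem_powerset] at hF
    have hFl : ∀ w ∈ F, w.length = r := fun w hw => mem_strsEq.1 (List.mem_toFinset.1 (hF.1 hw))
    have h3 : Loc (⋃ κ ∈ trialsI s n, (blkS b r x κ : Set (List Bool)))
        {A | ∀ κ ∈ trialsI s n, word b r A x κ ∉ F} := by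
      intro A A' h
      rw [Set.mem_ofPred_eq, Set.mem_ofPred_eq]
      refine forall₂_congr fun κ' hκ' => ?_
      rw [word_congr fun q hq => h q (Set.mem_biUnion hκ' hq)]
    rw [prob_inter_of_disjoint hfin (Set.Finite.biUnion (Finset.finite_toSet _)
      fun κ' _ => Finset.finite_toSet _) ?_ (hlocE F) h3, prob_words b r x _ hFl, card_trialsI]
    · refine mul_le_mul_of_nonneg_left ?_ (prob_nonneg _)
      refine le_trans (pow_le_pow_left₀ ?_ ?_ _) (sat_le s (2 * n + 2))
      · have h4 : (F.card : ℝ) ≤ 2 ^ r := by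
          have := Finset.card_le_card hF.1
          rw [List.toFinset_card_of_nodup (nodup_strsEq r), length_strsEq] at this
          exact_mod_cast this
        have h5 : (F.card : ℝ) * (1 / 2) ^ r ≤ 2 ^ r * (1 / 2) ^ r := by gcongr
        rw [← mul_pow] at h5
        norm_num at h5
        norm_num
        linarith
      · have h4 : (2 : ℝ) ^ r ≤ 2 ^ s * F.card := by exact_mod_cast hF.2
        have h5 : (1 / 2 : ℝ) ^ s ≤ F.card * (1 / 2) ^ r := by
          calc (1 / 2 : ℝ) ^ s = (1 / 2) ^ s * (1 / 2) ^ r * 2 ^ r := by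
                rw [mul_assoc, ← mul_pow]; norm_num
            _ ≤ (1 / 2) ^ s * (1 / 2) ^ r * (2 ^ s * F.card) := by gcongr
            _ = (F.card * (1 / 2) ^ r) * ((1 / 2) ^ s * 2 ^ s) := by ring
            _ = _ := by rw [← mul_pow]; norm_num
        linarith
    · rw [Set.disjoint_left]
      intro q hq hq'
      rw [Set.mem_iUnion₂] at hq'
      obtain ⟨κ', _, hq'⟩ := hq'
      rw [Finset.mem_coe, blkS, Finset.mem_image] at hq'
      obtain ⟨j, _, rfl⟩ := hq'
      have h4 := lt_length_spot b x κ'.1 κ'.2 j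
      rw [Set.mem_ofPred_eq] at hq
      omega
  have h3 : ∑ F ∈ P, prob {A | accS M A x r = F} ≤ 1 := by
    have h4 : ∑ F ∈ P, prob {A | accS M A x r = F} = prob (⋃ F ∈ P, {A | accS M A x r = F}) := by
      unfold prob
      rw [measureReal_biUnion_finset]
      · intro F _ F' _ hne
        rw [Function.onFun, Set.disjoint_left]
        intro A hA hA'
        exact hne (hA.symm.trans hA')
      · intro F _
        exact measurableSet_of_loc hfin (hlocE F)
    rw [h4, ← prob_univ']
    exact prob_mono (Set.subset_univ _)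
  calc prob (BadS M b r s n x) ≤ prob (⋃ F ∈ P, ({A | accS M A x r = F} ∩
        {A | ∀ κ ∈ trialsI s n, word b r A x κ ∉ F})) := prob_mono h1
    _ ≤ ∑ F ∈ P, prob ({A | accS M A x r = F} ∩
        {A | ∀ κ ∈ trialsI s n, word b r A x κ ∉ F}) := measureReal_biUnion_finset_le _ _
    _ ≤ ∑ F ∈ P, prob {A | accS M A x r = F} * (1 / 2) ^ (2 * n + 2) := Finset.sum_le_sum h2
    _ = (∑ F ∈ P, prob {A | accS M A x r = F}) * (1 / 2) ^ (2 * n + 2) := by
        rw [Finset.sum_mul]
    _ ≤ 1 * (1 / 2) ^ (2 * n + 2) := by gcongr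
    _ = _ := one_mul _

end Pool.Agent.L0h33.RR
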