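import Pool.Agent.L0h33.RR.Incl
import Pool.Agent.H628R3.RO.G1

/-!
# Classes with different numbers of guessed bits, relative to a random oracle
-/

set_option autoImplicit false

namespace Pool.Agent.L0h33.RR

open Function Pool.Agent.NPC Pool.Agent.L0h33.LD MeasureTheory Pool.Agent.H660R2.NX
open Pool.Agent.H620R2.Gauge (Oracle IsFP IsP Alg)
open Pool.Agent.H620R2.Gauge (IsFP.pair IsFP.comp IsFP.of_poly IsFP.precomp IsFP.votes IsFP.tt
  Alg.out_local)
open Pool.Agent.H628R3.RO (prob randomOracle Loc strsEq mem_strsEq length_strsEq nodup_strsEq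
  Cand cands pos spots allSpots Hit NoHit HitSet plant mem_cands asks p_asks asks_all
  not_mem_noHit measurableSet_of_loc sat_ge finite_length_le prob_noHit_inter prob_hitSet)
open Pool.Agent.H628R3.RO.M2 (prob_nonneg prob_mono pos_inj mem_spots spots_disjoint
  allSpots_singleton sum_prob_le measurable_plant measurableSet_noHit
  measurableSet_hitSet prob_inter_add_compl loc_noHit loc_plant)
open Pool.Agent.H628R3.RO (card_cands half_pow_mul half_pow_le_one)
open scoped ENNReal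

attribute [local irreducible] unpair

/-- The string `1 ^ n`. -/
abbrev ones (n : ℕ) : List Bool := List.replicate n true

/-- The tally language of the numbers `n` for which a string `w` of length `g (n)` is a hit. -/
def LW (g : ℕ → ℕ) (A : Oracle) : Set (List Bool) :=
  {x | x = ones x.length ∧ ∃ w : List Bool, w.length = g x.length ∧
    Hit (g x.length) (x.length, w) A}

theorem mem_LW {g : ℕ → ℕ} {A : Oracle} {n : ℕ} :
    ones n ∈ LW g A ↔ A ∉ NoHit (g n) (cands {n} (g n)) := by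
  rw [not_mem_noHit]
  unfold LW
  rw [Set.mem_ofPred_eq]
  simp only [List.length_replicate, true_and]
  constructor
  · rintro ⟨w, hw, hh⟩
    exact ⟨(n, w), mem_cands.2 ⟨by simp, hw⟩, hh⟩
  · rintro ⟨⟨c, w⟩, hκ, hh⟩
    obtain ⟨h1, h2⟩ := mem_cands.1 hκ
    simp only [Finset.mem_singleton] at h1
    subst h1
    exact ⟨w, h2, hh⟩

theorem ga_LW {g : ℕ → ℕ} (hg : Nice g) (A : Oracle) : GA A g (LW g A) := by
  have k0 : Poly (fun y : List Bool => unpair y) := poly_unpair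
  have k1 : Poly (fun y : List Bool => (unpair y).1) := k0.fst
  have k2 : Poly (fun y : List Bool => (unpair y).2) := k0.snd
  have kl : UPoly (fun y : List Bool => (unpair y).1.length) := UPoly.length k1
  have hQ : Poly (fun y : List Bool => asks (g (unpair y).1.length) (unpair y).1.length
      (unpair y).2) := p_asks ((nice_upoly hg).comp k1) kl k2
  have e1 : Poly (fun p : List Bool × List Bool => (unpair p.1).1) :=
    k1.comp (NPC.Poly.fst NPC.Poly.id)
  have hH : Poly (fun p : List Bool × List Bool =>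
      [decide ((unpair p.1).1 = (unpair p.1).1.map (fun _ => true)) && p.2.all id]) :=
    NPC.Poly.cons (NPC.Poly.and (NPC.Poly.decide_eq e1 (NPC.Poly.map (F := fun _ _ => true) e1
      (NPC.Poly.const true))) (NPC.Poly.all (p := fun _ (b : Bool) => id b)
        (NPC.Poly.snd NPC.Poly.id) (NPC.Poly.snd NPC.Poly.id))) (NPC.Poly.const [])
  refine ga_iff.2 ⟨_, IsFP.tt (A := A) hQ hH, fun x => ?_⟩
  unfold LW
  rw [Set.mem_ofPred_eq]
  simp only [unpair_pairBits, List.cons.injEq, and_true, Bool.and_eq_true, decide_eq_true_eq,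
    List.map_const']
  constructor
  · rintro ⟨h1, w, hw, hh⟩
    exact ⟨w, hw, h1, (asks_all A _ _ _).2 hh⟩
  · rintro ⟨w, hw, h1, hh⟩
    exact ⟨h1, w, hw, (asks_all A _ _ _).1 hh⟩

/-- The algorithm `M` with `g (n)` guessed bits is right on the input `1 ^ n`. -/
def Corr (M : Alg) (g g' : ℕ → ℕ) (n : ℕ) : Set Oracle :=
  {A | ones n ∈ LW g' A ↔
    ∃ u : List Bool, u.length = g n ∧ M.out A (pairBits (ones n) u) = some [true]}

theorem loc_corr (M : Alg) (g g' : ℕ → ℕ) (n : ℕ) : ∃ B : ℕ,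
    Loc {q : List Bool | q.length ≤ B} (Corr M g g' n) := by
  obtain ⟨qb, hqb⟩ := M.out_local
  refine ⟨qb.eval (2 * n + 1 + g n) + (n + 2 * g' n + 2), fun A A' h => ?_⟩
  have h1 : ∀ u : List Bool, u.length = g n →
      M.out A (pairBits (ones n) u) = M.out A' (pairBits (ones n) u) := by
    intro u hu
    obtain ⟨Q, _, hQ, hloc⟩ := hqb A' (pairBits (ones n) u)
    refine hloc A fun q hq => h q ?_
    have := hQ q hq
    rw [LD.length_pairBits, hu, List.length_replicate] at this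
    rw [Set.mem_ofPred_eq]
    omega
  have h2 : A ∈ NoHit (g' n) (cands {n} (g' n)) ↔ A' ∈ NoHit (g' n) (cands {n} (g' n)) := by
    refine loc_noHit (K := {q : List Bool | q.length ≤
      qb.eval (2 * n + 1 + g n) + (n + 2 * g' n + 2)}) ?_ A A' h
    intro κ hκ i hi
    obtain ⟨h3, h4⟩ := mem_cands.1 hκ
    simp only [Finset.mem_singleton] at h3
    rw [Set.mem_ofPred_eq, Pool.Agent.H628R3.RO.length_pos, h3, h4]
    omega
  unfold Corr
  rw [Set.mem_ofPred_eq, Set.mem_ofPred_eq, mem_LW, mem_LW]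
  refine iff_congr (not_congr h2) ?_
  refine exists_congr fun u => and_congr_right fun hu => ?_
  rw [h1 u hu]

open Classical in
/-- The candidate to which a string belongs. -/
noncomputable def candOf (q : List Bool) : Cand :=
  if h : ∃ κ : Cand, ∃ i, q = pos κ.1 i κ.2 then h.choose else (0, [])

theorem candOf_eq {q : List Bool} {m : ℕ} {κ : Cand} (h : q ∈ spots m κ) : candOf q = κ := by
  obtain ⟨i, _, rfl⟩ := mem_spots.1 h
  have h1 : ∃ κ' : Cand, ∃ i', pos κ.1 i κ.2 = pos κ'.1 i' κ'.2 := ⟨κ, i, rfl⟩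
  unfold candOf
  rw [dif_pos h1]
  obtain ⟨i', h2⟩ := h1.choose_spec
  obtain ⟨h3, _, h4⟩ := pos_inj h2
  exact (Prod.ext h3 h4).symm

/-- Few changes of one candidate change the result of the computation. -/
theorem few_changes (M : Alg) (g g' : ℕ → ℕ) (n : ℕ) (hm : 1 ≤ g' n) (B : Oracle)
    (hB : B ∈ NoHit (g' n) (cands {n} (g' n))) (hC : B ∈ Corr M g g' n) :
    ∃ T : Finset Cand, T.card ≤ 2 ^ g n * M.p.eval (2 * n + 1 + g n) ∧
      ∀ κ ∈ cands {n} (g' n), plant (spots (g' n) κ) B ∈ Corr M g g' n → κ ∈ T := by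
  classical
  obtain ⟨qb, hqb⟩ := M.out_local
  choose Q hQ1 _ hQ3 using hqb B
  refine ⟨((strsEq (g n)).toFinset.biUnion fun u => Q (pairBits (ones n) u)).image candOf,
    ?_, fun κ hκ hp => ?_⟩
  · refine Finset.card_image_le.trans (Finset.card_biUnion_le.trans ?_)
    calc ∑ u ∈ (strsEq (g n)).toFinset, (Q (pairBits (ones n) u)).card
        ≤ ∑ _u ∈ (strsEq (g n)).toFinset, M.p.eval (2 * n + 1 + g n) := by
          refine Finset.sum_le_sum fun u hu => ?_
          have h1 := hQ1 (pairBits (ones n) u)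
          rw [List.mem_toFinset, mem_strsEq] at hu
          rwa [LD.length_pairBits, hu, List.length_replicate] at h1
      _ = _ := by
          rw [Finset.sum_const, List.toFinset_card_of_nodup (nodup_strsEq _), length_strsEq,
            smul_eq_mul]
  · by_contra hcon
    have h1 : ∀ u : List Bool, u.length = g n →
        M.out (plant (spots (g' n) κ) B) (pairBits (ones n) u) =
          M.out B (pairBits (ones n) u) := by
      intro u hu
      refine hQ3 (pairBits (ones n) u) _ fun q hq => ?_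
      unfold plant
      rw [if_neg]
      intro hq'
      refine hcon (Finset.mem_image.2 ⟨q, ?_, candOf_eq hq'⟩)
      exact Finset.mem_biUnion.2 ⟨u, List.mem_toFinset.2 (mem_strsEq.2 hu), hq⟩
    have h2 : ones n ∈ LW g' (plant (spots (g' n) κ) B) := by
      rw [mem_LW, not_mem_noHit]
      refine ⟨κ, hκ, fun i hi => ?_⟩
      unfold plant
      rw [if_pos (mem_spots.2 ⟨i, hi, rfl⟩)]
    have h3 : ones n ∉ LW g' B := by
      rw [mem_LW]
      exact fun h => h hB
    unfold Corr at hp hC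
    rw [Set.mem_ofPred_eq] at hp hC
    obtain ⟨u, hu, hM⟩ := hp.1 h2
    rw [h1 u hu] at hM
    exact h3 (hC.2 ⟨u, hu, hM⟩)

theorem step {M : Alg} {g g' : ℕ → ℕ} {n : ℕ} (hm : 1 ≤ g' n)
    (h8 : 8 * (2 ^ g n * M.p.eval (2 * n + 1 + g n)) ≤ 2 ^ g' n) {K : Set (List Bool)}
    (hK : K.Finite) {S : Set Oracle} (hS : Loc K S)
    (hKn : ∀ (i : ℕ) (w : List Bool), pos n i w ∉ K) :
    prob (S ∩ Corr M g g' n) ≤ 25 / 32 * prob S := by
  classical
  set m := g' n with hmdef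
  set W := cands {n} m with hW
  set T := Corr M g g' n with hT
  set NH := NoHit m W with hNH
  set q : ℝ := (1 / 2) ^ m with hq
  set t0 : ℕ := 2 ^ g n * M.p.eval (2 * n + 1 + g n) with ht0
  have hq0 : 0 < q := by positivity
  have hq1 : q ≤ 1 / 2 := by
    calc q ≤ (1 / 2) ^ 1 := pow_le_pow_of_le_one (by norm_num) (by norm_num) hm
      _ = 1 / 2 := pow_one _
  have hqm : q * (2 ^ m : ℕ) = 1 := half_pow_mul m
  have hcard : W.card = 2 ^ m := by rw [hW, card_cands]; simp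
  have hWκ : ∀ κ ∈ W, κ.1 = n := fun κ hκ => by
    have := (mem_cands.1 hκ).1
    simpa using this
  have hSm : MeasurableSet S := measurableSet_of_loc hK hS
  obtain ⟨BT, hBT⟩ := loc_corr M g g' n
  have hTm : MeasurableSet T := measurableSet_of_loc (finite_length_le BT) hBT
  have hNHm : MeasurableSet NH := measurableSet_noHit m W
  have hKW : ∀ κ ∈ W, ∀ i < m, pos κ.1 i κ.2 ∉ K := fun κ hκ i _ => by
    rw [hWκ κ hκ]
    exact hKn i κ.2
  have hplS : ∀ κ ∈ W, plant (spots m κ) ⁻¹' S = S := by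
    intro κ hκ
    ext A
    rw [Set.mem_preimage]
    refine hS _ _ fun x hx => ?_
    unfold plant
    rw [if_neg]
    intro hx'
    obtain ⟨i, hi, rfl⟩ := mem_spots.1 hx'
    exact hKW κ hκ i hi hx
  -- the probabilities
  set b := prob (S ∩ NH) with hb
  set a := prob (S ∩ NH ∩ T) with ha
  have hb1 : 1 / 4 * prob S ≤ b := by
    rw [hb, hNH, prob_noHit_inter hK hS m W hKW, hcard]
    have h1 := sat_ge hm 1
    rw [pow_one, one_mul] at h1
    nlinarith [prob_nonneg S]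
  have hba : prob (S ∩ NH ∩ Tᶜ) = b - a := by
    have := prob_inter_add_compl (S ∩ NH) hTm
    linarith
  have ha0 : 0 ≤ a := prob_nonneg _
  have hba0 : 0 ≤ b - a := by rw [← hba]; exact prob_nonneg _
  have hH : ∀ κ ∈ W, prob (S ∩ HitSet m W {κ}) * (1 - q) = q * b := by
    intro κ hκ
    have h1 := prob_hitSet hSm m (W := W) (h := {κ}) (Finset.singleton_subset_iff.2 hκ)
    rw [Finset.card_singleton, pow_one, pow_one, allSpots_singleton, hplS κ hκ] at h1
    exact h1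
  have hHT : ∀ κ ∈ W, prob (S ∩ T ∩ HitSet m W {κ}) * (1 - q) =
      q * prob (S ∩ NH ∩ plant (spots m κ) ⁻¹' T) := by
    intro κ hκ
    have h1 := prob_hitSet (hSm.inter hTm) m (W := W) (h := {κ})
      (Finset.singleton_subset_iff.2 hκ)
    rw [Finset.card_singleton, pow_one, pow_one, allSpots_singleton, Set.preimage_inter,
      hplS κ hκ] at h1
    rw [h1]
    congr 2
    ext A
    simp only [Set.mem_inter_iff]
    tauto
  have hsum : ∑ κ ∈ W, prob (S ∩ NH ∩ plant (spots m κ) ⁻¹' T) ≤ t0 * a + 2 ^ m * (b - a) := by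
    have h1 : ∀ κ ∈ W, prob (S ∩ NH ∩ plant (spots m κ) ⁻¹' T) ≤
        prob (S ∩ NH ∩ T ∩ plant (spots m κ) ⁻¹' T) + (b - a) := by
      intro κ _
      rw [← hba]
      refine le_trans (prob_mono ?_) (measureReal_union_le _ _)
      rintro A ⟨⟨h1, h2⟩, h3⟩
      by_cases h4 : A ∈ T
      · exact Or.inl ⟨⟨⟨h1, h2⟩, h4⟩, h3⟩
      · exact Or.inr ⟨⟨h1, h2⟩, h4⟩
    refine (Finset.sum_le_sum h1).trans ?_
    rw [Finset.sum_add_distrib, Finset.sum_const, hcard, nsmul_eq_mul]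
    have h2 := sum_prob_le (S := S ∩ NH ∩ T) ((hSm.inter hNHm).inter hTm) W
      (fun κ => plant (spots m κ) ⁻¹' T) (fun κ => (measurable_plant _) hTm) t0 (by
        rintro B ⟨⟨_, hB1⟩, hB2⟩
        exact few_changes M g g' n hm B hB1 hB2)
    push_cast
    linarith
  have hqt : q * t0 ≤ 1 / 8 := by
    have h1 : (8 : ℝ) * t0 ≤ (2 ^ m : ℕ) := by exact_mod_cast h8
    nlinarith
  -- the failure probability
  have hdis : ∀ κ ∈ W, ∀ κ' ∈ W, κ ≠ κ' →
      Disjoint (S ∩ Tᶜ ∩ HitSet m W {κ}) (S ∩ Tᶜ ∩ HitSet m W {κ'}) := by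
    intro κ hκ κ' _ hne
    rw [Set.disjoint_left]
    rintro A ⟨_, hA⟩ ⟨_, hA'⟩
    have h1 := (hA κ hκ).2 (Finset.mem_singleton_self _)
    have h2 := (hA' κ hκ).1 h1
    exact hne (Finset.mem_singleton.1 h2)
  have hfail : (b - a) + ∑ κ ∈ W, prob (S ∩ Tᶜ ∩ HitSet m W {κ}) ≤ prob (S ∩ Tᶜ) := by
    have h1 : prob (⋃ κ ∈ W, S ∩ Tᶜ ∩ HitSet m W {κ}) =
        ∑ κ ∈ W, prob (S ∩ Tᶜ ∩ HitSet m W {κ}) := by
      unfold prob
      rw [measureReal_biUnion_finset]
      · exact fun κ hκ κ' hκ' hne => hdis κ hκ κ' hκ' hne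
      · exact fun κ _ => (hSm.inter hTm.compl).inter (measurableSet_hitSet _ _ _)
    rw [← h1, ← hba]
    have h2 : Disjoint (S ∩ NH ∩ Tᶜ) (⋃ κ ∈ W, S ∩ Tᶜ ∩ HitSet m W {κ}) := by
      rw [Set.disjoint_left]
      rintro A ⟨⟨_, h3⟩, _⟩ h4
      simp only [Set.mem_iUnion, exists_prop] at h4
      obtain ⟨κ, hκ, _, h5⟩ := h4
      exact h3 κ hκ ((h5 κ hκ).2 (Finset.mem_singleton_self _))
    have h3 : MeasurableSet (⋃ κ ∈ W, S ∩ Tᶜ ∩ HitSet m W {κ}) :=
      Finset.measurableSet_biUnion _ fun κ _ =>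
        (hSm.inter hTm.compl).inter (measurableSet_hitSet _ _ _)
    have h4 : prob ((S ∩ NH ∩ Tᶜ) ∪ (⋃ κ ∈ W, S ∩ Tᶜ ∩ HitSet m W {κ})) =
        prob (S ∩ NH ∩ Tᶜ) + prob (⋃ κ ∈ W, S ∩ Tᶜ ∩ HitSet m W {κ}) :=
      measureReal_union h2 h3 (measure_ne_top _ _) (measure_ne_top _ _)
    rw [← h4]
    refine prob_mono ?_
    rintro A (⟨⟨h5, _⟩, h6⟩ | h5)
    · exact ⟨h5, h6⟩
    · simp only [Set.mem_iUnion, exists_prop] at h5
      obtain ⟨κ, _, h6, _⟩ := h5
      exact h6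
  have hsplit : ∀ κ ∈ W, prob (S ∩ Tᶜ ∩ HitSet m W {κ}) * (1 - q) =
      q * b - q * prob (S ∩ NH ∩ plant (spots m κ) ⁻¹' T) := by
    intro κ hκ
    have h1 := prob_inter_add_compl (S ∩ HitSet m W {κ}) hTm
    have h2 : S ∩ HitSet m W {κ} ∩ T = S ∩ T ∩ HitSet m W {κ} := by
      ext A; simp only [Set.mem_inter_iff]; tauto
    have h3 : S ∩ HitSet m W {κ} ∩ Tᶜ = S ∩ Tᶜ ∩ HitSet m W {κ} := by
      ext A; simp only [Set.mem_inter_iff]; tauto
    rw [h2, h3] at h1
    rw [← hH κ hκ, ← hHT κ hκ, ← h1]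
    ring
  set sf := ∑ κ ∈ W, prob (S ∩ Tᶜ ∩ HitSet m W {κ}) with hsf
  have hs1 : sf * (1 - q) = 2 ^ m * (q * b) -
      q * ∑ κ ∈ W, prob (S ∩ NH ∩ plant (spots m κ) ⁻¹' T) := by
    rw [hsf, Finset.sum_mul, Finset.sum_congr rfl hsplit, Finset.sum_sub_distrib,
      Finset.sum_const, hcard, nsmul_eq_mul, Finset.mul_sum]
    push_cast
    rfl
  have hs0 : 0 ≤ sf := Finset.sum_nonneg fun κ _ => prob_nonneg _
  have hqm' : (2 : ℝ) ^ m * q = 1 := by
    have := hqm
    push_cast at this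
    linarith
  have hs2 : 7 / 8 * a ≤ sf * (1 - q) := by
    rw [hs1]
    have h1 : q * ∑ κ ∈ W, prob (S ∩ NH ∩ plant (spots m κ) ⁻¹' T) ≤
        q * (t0 * a + 2 ^ m * (b - a)) := mul_le_mul_of_nonneg_left hsum hq0.le
    have h2 : q * (t0 * a + 2 ^ m * (b - a)) = (q * t0) * a + (2 ^ m * q) * (b - a) := by ring
    have h3 : (2 : ℝ) ^ m * (q * b) = (2 ^ m * q) * b := by ring
    rw [h2] at h1
    rw [h3]
    rw [hqm'] at h1 ⊢
    nlinarith
  have hs3 : 7 / 8 * a ≤ sf := by nlinarith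
  have h1 := prob_inter_add_compl S hTm
  nlinarith

/-- The condition which makes `M` fail. -/
def Far (M : Alg) (g g' : ℕ → ℕ) : Prop := ∀ N, ∃ n ≥ N, 1 ≤ g' n ∧
  8 * (2 ^ g n * M.p.eval (2 * n + 1 + g n)) ≤ 2 ^ g' n

theorem null_corr {M : Alg} {g g' : ℕ → ℕ} (h : Far M g g') :
    randomOracle {A | ∀ n, A ∈ Corr M g g' n} = 0 := by
  have key : ∀ k : ℕ, ∃ (K : Set (List Bool)) (S : Set Oracle), K.Finite ∧ Loc K S ∧
      {A | ∀ n, A ∈ Corr M g g' n} ⊆ S ∧ prob S ≤ (25 / 32) ^ k := by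
    intro k
    induction k with
    | zero =>
      refine ⟨∅, Set.univ, Set.finite_empty, fun _ _ _ => Iff.rfl, Set.subset_univ _, ?_⟩
      rw [Pool.Agent.H628R3.RO.prob_univ']
      simp
    | succ k ih =>
      obtain ⟨K, S, hK, hS, h1, h2⟩ := ih
      obtain ⟨N, hN⟩ := (hK.image List.length).bddAbove
      obtain ⟨n, hn, hm, h8⟩ := h (N + 1)
      obtain ⟨BT, hBT⟩ := loc_corr M g g' n
      refine ⟨K ∪ {q | q.length ≤ BT}, S ∩ Corr M g g' n, hK.union (finite_length_le BT),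
        ?_, fun A hA => ⟨h1 hA, hA n⟩, ?_⟩
      · intro A A' hA
        exact and_congr (hS A A' fun x hx => hA x (Or.inl hx))
          (hBT A A' fun x hx => hA x (Or.inr hx))
      · refine (step hm h8 hK hS fun i w hw => ?_).trans ?_
        · have h3 := hN (Set.mem_image_of_mem List.length hw)
          rw [Pool.Agent.H628R3.RO.length_pos] at h3
          omega
        · rw [pow_succ]
          linarith
  have h1 : prob {A | ∀ n, A ∈ Corr M g g' n} = 0 := by
    refine le_antisymm ?_ (prob_nonneg _)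
    refine ge_of_tendsto' (x := Filter.atTop) (tendsto_pow_atTop_nhds_zero_of_lt_one
      (r := (25 / 32 : ℝ)) (by norm_num) (by norm_num)) fun k => ?_
    obtain ⟨K, S, _, _, h2, h3⟩ := key k
    exact (prob_mono h2).trans h3
  unfold prob at h1
  rwa [measureReal_eq_zero_iff] at h1

theorem far_of {g g' : ℕ → ℕ} (hg : Nice g)
    (h : ¬ ∃ c, ∀ n, g' n ≤ g n + c * Nat.log 2 (n + 2)) (M : Alg) : Far M g g' := by
  obtain ⟨P, hP⟩ := nice_le hg
  obtain ⟨d, hd⟩ := Pool.Agent.H639R2.NTP.exists_pow_bound (M.p.comp (2 * Polynomial.X + 1 + P))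
  have ht : ∀ n, M.p.eval (2 * n + 1 + g n) ≤ (n + 2) ^ (d + 1) := by
    intro n
    have h1 : M.p.eval (2 * n + 1 + g n) ≤ (M.p.comp (2 * Polynomial.X + 1 + P)).eval n := by
      rw [Polynomial.eval_comp]
      refine Pool.Agent.NPC.eval_mono M.p ?_
      have := hP n
      simp
      omega
    refine h1.trans ((hd n).trans ?_)
    have h2 : n ^ d ≤ (n + 2) ^ d := Nat.pow_le_pow_left (by omega) d
    have h3 : d ≤ (n + 2) ^ d := by
      calc d ≤ 2 ^ d := Nat.lt_two_pow_self.le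
        _ ≤ (n + 2) ^ d := Nat.pow_le_pow_left (by omega) d
    calc n ^ d + d ≤ 2 * (n + 2) ^ d := by omega
      _ ≤ (n + 2) * (n + 2) ^ d := Nat.mul_le_mul_right _ (by omega)
      _ = (n + 2) ^ (d + 1) := by rw [pow_succ]; ring
  intro N
  set c := 2 * (d + 4) with hc
  by_contra hcon
  push Not at hcon
  refine h ⟨c + ∑ n ∈ Finset.range N, g' n, fun n => ?_⟩
  have hlog : 1 ≤ Nat.log 2 (n + 2) := Nat.log_pos (by norm_num) (by omega)
  by_contra hlt
  push Not at hlt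
  rcases lt_or_ge n N with hn | hn
  · have h1 : g' n ≤ ∑ n ∈ Finset.range N, g' n :=
      Finset.single_le_sum (f := g') (fun _ _ => Nat.zero_le _) (Finset.mem_range.2 hn)
    nlinarith
  · have h1 : g n + c * Nat.log 2 (n + 2) ≤ g' n := by
      have : c * Nat.log 2 (n + 2) ≤ (c + ∑ n ∈ Finset.range N, g' n) * Nat.log 2 (n + 2) :=
        Nat.mul_le_mul_right _ (by omega)
      omega
    have h2 : 1 ≤ g' n := by
      have : 1 ≤ c * Nat.log 2 (n + 2) := Nat.mul_pos (by omega) hlog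
      omega
    have h3 := hcon n hn h2
    have h4 : n + 2 ≤ 2 ^ (2 * Nat.log 2 (n + 2)) := by
      have h5 := Nat.lt_pow_succ_log_self (b := 2) (by norm_num) (n + 2)
      refine h5.le.trans (Nat.pow_le_pow_right (by norm_num) (by omega))
    have h5 : (n + 2) ^ (d + 4) ≤ 2 ^ (c * Nat.log 2 (n + 2)) := by
      calc (n + 2) ^ (d + 4) ≤ (2 ^ (2 * Nat.log 2 (n + 2))) ^ (d + 4) :=
            Nat.pow_le_pow_left h4 _
        _ = 2 ^ (c * Nat.log 2 (n + 2)) := by rw [← pow_mul, hc]; congr 1; ring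
    have h6 : 8 * M.p.eval (2 * n + 1 + g n) ≤ (n + 2) ^ (d + 4) := by
      calc 8 * M.p.eval (2 * n + 1 + g n) ≤ 2 ^ 3 * (n + 2) ^ (d + 1) := by
            have := ht n
            omega
        _ ≤ (n + 2) ^ 3 * (n + 2) ^ (d + 1) :=
            Nat.mul_le_mul_right _ (Nat.pow_le_pow_left (by omega) 3)
        _ = (n + 2) ^ (d + 4) := by rw [← pow_add]; congr 1; ring
    have h7 : 8 * (2 ^ g n * M.p.eval (2 * n + 1 + g n)) ≤ 2 ^ g' n := by
      calc 8 * (2 ^ g n * M.p.eval (2 * n + 1 + g n))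
          = 2 ^ g n * (8 * M.p.eval (2 * n + 1 + g n)) := by ring
        _ ≤ 2 ^ g n * 2 ^ (c * Nat.log 2 (n + 2)) := Nat.mul_le_mul_left _ (h6.trans h5)
        _ = 2 ^ (g n + c * Nat.log 2 (n + 2)) := by rw [pow_add]
        _ ≤ 2 ^ g' n := Nat.pow_le_pow_right (by norm_num) h1
    omega

/-- The classes are different if the numbers of guessed bits are not close. -/
theorem ae_sep : ∀ᵐ A ∂randomOracle, ∀ g g', Nice g → Nice g' →
    (¬ ∃ c, ∀ n, g' n ≤ g n + c * Nat.log 2 (n + 2)) → ¬ GA A g (LW g' A) := by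
  have hc := countable_nice.to_subtype
  have h1 : ∀ i : {i : Alg × {g : ℕ → ℕ | Nice g} × {g : ℕ → ℕ | Nice g} //
      ¬ ∃ c, ∀ n, i.2.2.1 n ≤ i.2.1.1 n + c * Nat.log 2 (n + 2)},
      ∀ᵐ A ∂randomOracle, ¬ ∀ n, A ∈ Corr i.1.1 i.1.2.1.1 i.1.2.2.1 n := by
    intro i
    have h2 := null_corr (far_of i.1.2.1.2 i.2 i.1.1)
    rw [ae_iff]
    simpa using h2
  rw [← ae_all_iff] at h1
  filter_upwards [h1] with A hA g g' hg hg' hne hGA
  obtain ⟨V, ⟨M, hM⟩, hV⟩ := ga_iff.1 hGA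
  refine hA ⟨(M, ⟨g, hg⟩, ⟨g', hg'⟩), hne⟩ fun n => ?_
  unfold Corr
  rw [Set.mem_ofPred_eq, hV (ones n)]
  simp only [List.length_replicate, hM, Option.some.injEq]

end Pool.Agent.L0h33.RR
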